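import Pool.Agent.L7h73.AC.Diff

/-!
# Derivations of fraction fields; constants of the field of differential rational functions

* `instFrac`: two commuting derivations of a domain extend to its field of fractions;
* `const_frac`: over a field of characteristic zero the constants of the field of fractions of the
  ring of differential polynomials in one indeterminate are the constants of the base field.
-/

set_option autoImplicit false

namespace Pool.Agent.L7h73.AC

open MvPolynomial

universe u v w

section frac

variable {B : Type u} [CommRing B]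

/-- The ring homomorphism `b ↦ b + ε δ b` to the dual numbers over a ring `K`. -/
noncomputable def toDual {K : Type v} [CommRing K] (φ : B →+* K) (δ : B →+ B)
    (hδ : ∀ a b, δ (a * b) = δ a * b + a * δ b) : B →+* TrivSqZeroExt K K where
  toFun b := TrivSqZeroExt.inl (φ b) + TrivSqZeroExt.inr (φ (δ b))
  map_one' := by
    have h1 : δ 1 = 0 := by simpa using hδ 1 1
    ext <;> simp [h1]
  map_mul' a b := by
    ext
    · simp
    · simp [hδ, mul_comm]
      ring
  map_zero' := by ext <;> simp
  map_add' a b := by ext <;> simp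

variable [IsDomain B]

/-- the homomorphism from the fraction field to the dual numbers over it -/
noncomputable def fracDual (δ : B →+ B) (hδ : ∀ a b, δ (a * b) = δ a * b + a * δ b) :
    FractionRing B →+* TrivSqZeroExt (FractionRing B) (FractionRing B) :=
  IsLocalization.lift (M := nonZeroDivisors B)
    (g := toDual (algebraMap B (FractionRing B)) δ hδ) (by
      intro y
      rw [TrivSqZeroExt.isUnit_iff_isUnit_fst]
      have : (toDual (algebraMap B (FractionRing B)) δ hδ y).fst
          = algebraMap B (FractionRing B) y := by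
        change TrivSqZeroExt.fst (TrivSqZeroExt.inl _ + TrivSqZeroExt.inr _ :
          TrivSqZeroExt (FractionRing B) (FractionRing B)) = _
        rw [TrivSqZeroExt.fst_add, TrivSqZeroExt.fst_inl, TrivSqZeroExt.fst_inr, add_zero]
      rw [this]
      exact IsLocalization.map_units _ y)

omit [IsDomain B] in
theorem fracDual_algebraMap (δ : B →+ B) (hδ : ∀ a b, δ (a * b) = δ a * b + a * δ b) (b : B) :
    fracDual δ hδ (algebraMap B (FractionRing B) b) =
      TrivSqZeroExt.inl (algebraMap B (FractionRing B) b) +
        TrivSqZeroExt.inr (algebraMap B (FractionRing B) (δ b)) := by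
  unfold fracDual
  rw [IsLocalization.lift_eq]
  rfl

omit [IsDomain B] in
theorem fracDual_fst (δ : B →+ B) (hδ : ∀ a b, δ (a * b) = δ a * b + a * δ b)
    (z : FractionRing B) : (fracDual δ hδ z).fst = z := by
  have h : (TrivSqZeroExt.fstHom (FractionRing B) (FractionRing B) (FractionRing B)).toRingHom.comp
      (fracDual δ hδ) = RingHom.id _ := by
    refine IsLocalization.ringHom_ext (nonZeroDivisors B) ?_
    ext b
    simp [fracDual_algebraMap]
  exact congrArg (fun f => f z) h

/-- the extension of a derivation to the fraction field -/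
noncomputable def fracD (δ : B →+ B) (hδ : ∀ a b, δ (a * b) = δ a * b + a * δ b) :
    FractionRing B →+ FractionRing B where
  toFun z := (fracDual δ hδ z).snd
  map_zero' := by simp
  map_add' x y := by simp

theorem fracD_leib (δ : B →+ B) (hδ : ∀ a b, δ (a * b) = δ a * b + a * δ b)
    (x y : FractionRing B) : fracD δ hδ (x * y) = fracD δ hδ x * y + x * fracD δ hδ y := by
  change (fracDual δ hδ (x * y)).snd = (fracDual δ hδ x).snd * y + x * (fracDual δ hδ y).snd
  rw [map_mul, TrivSqZeroExt.snd_mul, fracDual_fst, fracDual_fst]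
  simp [mul_comm]
  ring

omit [IsDomain B] in
theorem fracD_algebraMap (δ : B →+ B) (hδ : ∀ a b, δ (a * b) = δ a * b + a * δ b) (b : B) :
    fracD δ hδ (algebraMap B (FractionRing B) b) = algebraMap B (FractionRing B) (δ b) := by
  change (fracDual δ hδ (algebraMap B (FractionRing B) b)).snd = _
  rw [fracDual_algebraMap, TrivSqZeroExt.snd_add, TrivSqZeroExt.snd_inl, TrivSqZeroExt.snd_inr,
    zero_add]

/-- Uniqueness: a commutator of two derivations of the fraction field vanishing on `B` vanishes. -/
theorem frac_comm (D E : FractionRing B →+ FractionRing B)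
    (hD : ∀ x y, D (x * y) = D x * y + x * D y) (hE : ∀ x y, E (x * y) = E x * y + x * E y)
    (h : ∀ b : B, D (E (algebraMap B (FractionRing B) b)) =
      E (D (algebraMap B (FractionRing B) b))) (z : FractionRing B) : D (E z) = E (D z) := by
  obtain ⟨a, b, hb, rfl⟩ := IsFractionRing.div_surjective (A := B) z
  have hb0 : algebraMap B (FractionRing B) b ≠ 0 := by
    rw [Ne, IsFractionRing.to_map_eq_zero_iff]
    exact nonZeroDivisors.ne_zero hb
  set x := algebraMap B (FractionRing B) a
  set y := algebraMap B (FractionRing B) b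
  have hx : x / y * y = x := div_mul_cancel₀ _ hb0
  have h1 : D (E (x / y * y)) = E (D (x / y * y)) := by rw [hx]; exact h a
  have h2 : D (E y) = E (D y) := h b
  rw [hD, hE, map_add, map_add, hD, hD, hE, hE, h2] at h1
  have h3 : D (E (x / y)) * y = E (D (x / y)) * y := by linear_combination h1
  exact mul_right_cancel₀ hb0 h3

variable [Diff2 B]

noncomputable instance instFrac : Diff2 (FractionRing B) where
  d1 := fracD d1 leib1
  d2 := fracD d2 leib2
  leib1 := fracD_leib _ _
  leib2 := fracD_leib _ _
  comm := frac_comm _ _ (fracD_leib _ _) (fracD_leib _ _) (by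
    intro b
    rw [fracD_algebraMap, fracD_algebraMap, fracD_algebraMap, fracD_algebraMap, Diff2.comm])

theorem isDiff_frac : IsDiff (algebraMap B (FractionRing B)) :=
  ⟨fun b => (fracD_algebraMap _ _ b).symm, fun b => (fracD_algebraMap _ _ b).symm⟩

end frac

section deg

variable {B : Type u} [CommRing B] [Diff2 B] {V : Type v}

theorem totalDegree_d1_monomial (m : (V × ℕ × ℕ) →₀ ℕ) (b : B) :
    (d1 (monomial m b : DP B V)).totalDegree ≤ m.degree := by
  classical
  change (polyD d1 (fun x => X (x.1, x.2.1 + 1, x.2.2)) (monomial m b : DP B V)).totalDegree ≤ _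
  rw [polyD_apply, coefD_monomial, mkDerivation_monomial]
  refine (totalDegree_add _ _).trans (max_le ?_ ?_)
  · exact (totalDegree_monomial_le _ _).trans (by rw [Finsupp.degree_apply, Finsupp.sum]; rfl)
  · refine (totalDegree_smul_le _ _).trans ?_
    rw [Finsupp.sum]
    refine totalDegree_finsetSum_le fun i hi => ?_
    rw [smul_eq_mul]
    refine (totalDegree_mul _ _).trans ?_
    have h1 : (monomial (m - Finsupp.single i 1) ((m i : ℕ) : B) : DP B V).totalDegree
        ≤ m.degree - 1 := by
      refine (totalDegree_monomial_le _ _).trans ?_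
      have hmi : 1 ≤ m i := Nat.one_le_iff_ne_zero.mpr (Finsupp.mem_support_iff.mp hi)
      have h2 : m = (m - Finsupp.single i 1) + Finsupp.single i 1 := by
        ext j
        by_cases hj : j = i
        · subst hj; simp; omega
        · simp [Ne.symm hj]
      have h3 : m.degree = (m - Finsupp.single i 1).degree + 1 := by
        conv_lhs => rw [h2, map_add, Finsupp.degree_single]
      have h4 : ((m - Finsupp.single i 1).sum fun _ => id) = (m - Finsupp.single i 1).degree := by
        rw [Finsupp.degree_apply, Finsupp.sum]; rfl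
      omega
    have h2 : (X (i.1, i.2.1 + 1, i.2.2) : DP B V).totalDegree ≤ 1 := by
      rw [X]
      refine (totalDegree_monomial_le _ _).trans ?_
      simp
    have h5 : 1 ≤ m.degree := by
      have hmi : 1 ≤ m i := Nat.one_le_iff_ne_zero.mpr (Finsupp.mem_support_iff.mp hi)
      exact hmi.trans (Finsupp.le_degree i m)
    omega

theorem totalDegree_d1 (p : DP B V) : (d1 p).totalDegree ≤ p.totalDegree := by
  classical
  conv_lhs => rw [p.as_sum, map_sum]
  refine totalDegree_finsetSum_le fun m hm => ?_
  refine (totalDegree_d1_monomial m _).trans ?_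
  have := le_totalDegree hm
  rwa [Finsupp.sum, ← Finsupp.degree_apply] at this

theorem pderiv_d1 (v : V) (i j : ℕ) (p : DP B V) :
    pderiv (v, i + 1, j) (d1 p) = d1 (pderiv (v, i + 1, j) p) + pderiv (v, i, j) p := by
  classical
  induction p using MvPolynomial.induction_on with
  | C b => rw [d1_C, pderiv_C, pderiv_C, pderiv_C, map_zero, add_zero]
  | add p q hp hq => simp only [map_add, hp, hq]; ring
  | mul_X p s hp =>
    have h1 : pderiv (v, i + 1, j) (X (s.1, s.2.1 + 1, s.2.2) : DP B V) =
        pderiv (v, i, j) (X s) := by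
      by_cases hs : s = (v, i, j)
      · subst hs; simp
      · have h2 : (s.1, s.2.1 + 1, s.2.2) ≠ (v, i + 1, j) := by
          intro h
          apply hs
          obtain ⟨a, b, c⟩ := s
          simp only [Prod.mk.injEq, Nat.add_right_cancel_iff] at h ⊢
          exact h
        rw [pderiv_X_of_ne h2, pderiv_X_of_ne hs]
    have h3 : d1 (pderiv (v, i + 1, j) (X s : DP B V)) = 0 := by
      rw [pderiv_X]
      by_cases hs : s = (v, i + 1, j)
      · subst hs; simp
      · rw [Pi.single_eq_of_ne hs, map_zero]
    rw [leib1, map_add, pderiv_mul, pderiv_mul, pderiv_mul, pderiv_mul, map_add, leib1, leib1,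
      h3, hp, d1_X, h1]
    ring

end deg

section const

variable {A : Type u} [Field A] [CharZero A] [Diff2 A] {V : Type v}

theorem pderiv_ne_zero {σ : Type w} {p : MvPolynomial σ A} {x : σ} (hx : x ∈ p.vars) :
    pderiv x p ≠ 0 := by
  classical
  obtain ⟨m, hm, hxm⟩ := (mem_vars_iff_mem_support x).mp hx
  intro h
  have h1 := coeff_pderiv p (m - Finsupp.single x 1) (i := x)
  have hmi : 1 ≤ m x := Nat.one_le_iff_ne_zero.mpr (Finsupp.mem_support_iff.mp hxm)
  have h2 : m - Finsupp.single x 1 + Finsupp.single x 1 = m := by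
    ext j
    by_cases hj : j = x
    · subst hj; simp; omega
    · simp [Ne.symm hj]
  rw [h, h2, coeff_zero] at h1
  have h3 : (((m - Finsupp.single x 1 : σ →₀ ℕ) x : ℕ) : A) + 1 ≠ 0 :=
    Nat.cast_add_one_ne_zero _
  exact mem_support_iff.mp hm ((mul_eq_zero.mp h1.symm).resolve_right h3)

theorem isConst_of_dvd_d1 (a : DP A V) (h : a ∣ d1 a) : ∃ c : A, a = C c := by
  classical
  by_cases ha : a = 0
  · exact ⟨0, by simp [ha]⟩
  obtain ⟨l, hl⟩ := h
  obtain ⟨c, hc⟩ : ∃ c : A, d1 a = C c * a := by
    by_cases hl0 : l = 0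
    · exact ⟨0, by rw [hl, hl0]; simp⟩
    have h1 := totalDegree_d1 a
    rw [hl, totalDegree_mul_of_isDomain ha hl0] at h1
    have h2 : l.totalDegree = 0 := by omega
    rw [totalDegree_eq_zero_iff_eq_C] at h2
    exact ⟨_, by rw [hl, mul_comm]; congr 1⟩
  by_contra hne
  have hv : a.vars.Nonempty := by
    rw [Finset.nonempty_iff_ne_empty]
    intro hv
    exact hne ⟨_, vars_eq_empty_iff_eq_C.mp hv⟩
  obtain ⟨x, hx, hmax⟩ := a.vars.exists_max_image (fun x => x.2.1) hv
  obtain ⟨v, i, j⟩ := x
  have h1 : pderiv (v, i + 1, j) a = 0 := by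
    apply pderiv_eq_zero_of_notMem_vars
    intro h
    have := hmax _ h
    simp at this
  have h2 := pderiv_d1 v i j a
  rw [h1, map_zero, zero_add, hc, pderiv_C_mul, h1, mul_zero] at h2
  exact pderiv_ne_zero hx h2.symm

theorem const_frac' (z : FractionRing (DP A V)) (h1 : d1 z = 0) :
    ∃ a : A, d1 a = 0 ∧ (algebraMap (DP A V) (FractionRing (DP A V)) (C a)) = z := by
  obtain ⟨p, q, hpq, rfl⟩ := IsFractionRing.exists_reduced_fraction (A := DP A V)
    (K := FractionRing (DP A V)) z
  set K := FractionRing (DP A V)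
  have hq0 : (q : DP A V) ≠ 0 := nonZeroDivisors.ne_zero q.2
  have hz : IsLocalization.mk' K p q * algebraMap (DP A V) K q = algebraMap (DP A V) K p :=
    IsLocalization.mk'_spec _ _ _
  have h2 := congrArg (d1 : K →+ K) hz
  rw [leib1, h1, zero_mul, zero_add, ← isDiff_frac.d1, ← isDiff_frac.d1] at h2
  have h3 : algebraMap (DP A V) K (p * d1 (q : DP A V)) = algebraMap (DP A V) K (d1 p * q) := by
    rw [map_mul, map_mul, ← h2, ← hz]; ring
  have h4 : p * d1 (q : DP A V) = d1 p * q := IsFractionRing.injective _ _ h3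
  have h5 : p ∣ d1 p := hpq.dvd_of_dvd_mul_right (Dvd.intro _ h4)
  have h6 : (q : DP A V) ∣ d1 (q : DP A V) :=
    hpq.symm.dvd_of_dvd_mul_left (Dvd.intro_left _ h4.symm)
  obtain ⟨α, hα⟩ := isConst_of_dvd_d1 p h5
  obtain ⟨β, hβ⟩ := isConst_of_dvd_d1 (q : DP A V) h6
  have hβ0 : β ≠ 0 := by
    rintro rfl
    exact hq0 (by rw [hβ]; simp)
  have h7 : algebraMap (DP A V) K (C (α / β)) = IsLocalization.mk' K p q := by
    rw [eq_comm, IsLocalization.mk'_eq_iff_eq_mul, ← map_mul, hα, hβ, ← C_mul,
      div_mul_cancel₀ _ hβ0]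
  refine ⟨α / β, ?_, h7⟩
  rw [← h7, ← isDiff_frac.d1, d1_C] at h1
  have h8 : (C (d1 (α / β)) : DP A V) = 0 := by
    apply IsFractionRing.injective (DP A V) K
    rw [h1, map_zero]
  exact C_injective _ _ (by rw [h8, map_zero])

theorem const_frac (z : FractionRing (DP A Unit)) (h1 : d1 z = 0) (h2 : d2 z = 0) :
    ∃ a : A, d1 a = 0 ∧ d2 a = 0 ∧
      algebraMap (DP A Unit) (FractionRing (DP A Unit)) (C a) = z := by
  obtain ⟨a, ha, hz⟩ := const_frac' z h1
  refine ⟨a, ha, ?_, hz⟩
  rw [← hz, ← isDiff_frac.d2, d2_C] at h2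
  have h8 : (C (d2 a) : DP A Unit) = 0 := by
    apply IsFractionRing.injective (DP A Unit) (FractionRing (DP A Unit))
    rw [h2, map_zero]
  exact C_injective _ _ (by rw [h8, map_zero])

end const

end Pool.Agent.L7h73.AC
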