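import Pool.Agent.L7h97.AC.TwoVar
import Pool.Agent.L7h97.AC.Frac

/-!
# The star ring over a differential field satisfies no generalized polynomial identity

`no_gpi`: if the `e i` in `S A` are linearly independent over the constants, then so are the monomials
`e i₀ u e i₁ u ... u e iₙ` in the star ring of the differential polynomials in the indeterminate `u`.
-/

set_option autoImplicit false
set_option linter.unusedSectionVars false

namespace Pool.Agent.L7h73.AC

universe u v w

open MvPolynomial

attribute [-instance] HahnSeries.powerSeriesAlgebra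

/-! ### the derivation `u ↦ z` -/
section delta

variable {A : Type u} {F : Type v} [CommRing A] [CommRing F] [Diff2 A] [Diff2 F]

/-- the homomorphism `p ↦ φ p + ε δ p` -/
noncomputable def thetaHom (φ : DP A Unit →+* F) :
    DP A Unit →+* TrivSqZeroExt (DP F Unit) (DP F Unit) :=
  eval₂Hom ((TrivSqZeroExt.inlHom (DP F Unit) (DP F Unit)).comp ((C : F →+* DP F Unit).comp
    (φ.comp (C : A →+* DP A Unit))))
    (fun x => TrivSqZeroExt.inl (C (φ (X x))) + TrivSqZeroExt.inr (X x))

theorem thetaHom_fst (φ : DP A Unit →+* F) (p : DP A Unit) : (thetaHom φ p).fst = C (φ p) := by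
  have h : (TrivSqZeroExt.fstHom (DP F Unit) (DP F Unit) (DP F Unit)).toRingHom.comp
      (thetaHom φ) = (C : F →+* DP F Unit).comp φ := by
    refine MvPolynomial.ringHom_ext (fun a => ?_) (fun x => ?_)
    · simp [thetaHom]
    · simp [thetaHom]
  exact congrArg (fun f => f p) h

/-- the derivation over `φ` with `u ↦ z` -/
noncomputable def delta (φ : DP A Unit →+* F) : DP A Unit →+ DP F Unit where
  toFun p := (thetaHom φ p).snd
  map_zero' := by simp
  map_add' x y := by simp

theorem delta_mul (φ : DP A Unit →+* F) (p q : DP A Unit) :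
    delta φ (p * q) = delta φ p * C (φ q) + C (φ p) * delta φ q := by
  change (thetaHom φ (p * q)).snd = (thetaHom φ p).snd * C (φ q) + C (φ p) * (thetaHom φ q).snd
  rw [map_mul, TrivSqZeroExt.snd_mul, thetaHom_fst, thetaHom_fst]
  simp only [smul_eq_mul, MulOpposite.smul_eq_mul_unop, MulOpposite.unop_op]
  ring

@[simp] theorem delta_C (φ : DP A Unit →+* F) (a : A) : delta φ (C a) = 0 := by
  change (thetaHom φ (C a)).snd = 0
  simp [thetaHom]

@[simp] theorem delta_X (φ : DP A Unit →+* F) (x : Unit × ℕ × ℕ) : delta φ (X x) = X x := by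
  change (thetaHom φ (X x)).snd = X x
  simp [thetaHom]

theorem delta_d1 {φ : DP A Unit →+* F} (hφ : IsDiff φ) (p : DP A Unit) :
    delta φ (d1 p) = d1 (delta φ p) := by
  induction p using MvPolynomial.induction_on with
  | C b => rw [d1_C, delta_C, delta_C, map_zero]
  | add p q hp hq => rw [map_add, map_add, hp, hq, map_add, map_add]
  | mul_X p s hp =>
    rw [leib1, map_add, delta_mul, delta_mul, delta_mul, d1_X, delta_X, delta_X, map_add, leib1,
      leib1, hp, d1_C, d1_C, hφ.d1, ← hφ.d1 (X s), d1_X, d1_X]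
    ring

theorem delta_d2 {φ : DP A Unit →+* F} (hφ : IsDiff φ) (p : DP A Unit) :
    delta φ (d2 p) = d2 (delta φ p) := by
  induction p using MvPolynomial.induction_on with
  | C b => rw [d2_C, delta_C, delta_C, map_zero]
  | add p q hp hq => rw [map_add, map_add, hp, hq, map_add, map_add]
  | mul_X p s hp =>
    rw [leib2, map_add, delta_mul, delta_mul, delta_mul, d2_X, delta_X, delta_X, map_add, leib2,
      leib2, hp, d2_C, d2_C, hφ.d2, ← hφ.d2 (X s), d2_X, d2_X]
    ring

end delta

namespace S

theorem map_injective {B : Type u} {C : Type v} [CommRing B] [Algebra ℚ B] [Diff2 B] [CommRing C]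
    [Algebra ℚ C] [Diff2 C] {φ : B →+* C} (hφ : IsDiff φ) (h : Function.Injective φ) :
    Function.Injective (S.map φ hφ) := by
  intro x y hxy
  ext q
  exact h (congrArg (fun z => cf z q) hxy)

section nogpi

variable {A : Type u} [Field A] [CharZero A] [Diff2 A]

/-- the embedding of `S A` in the star ring of the differential polynomials -/
noncomputable abbrev emb : S A →+* S (DP A Unit) := S.map (C : A →+* DP A Unit) isDiff_C

/-- the indeterminate -/
noncomputable abbrev uu : S (DP A Unit) := S.sg 0 (X ((), 0, 0))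

/-- the monomials `e i u e j u ...` -/
noncomputable def mon {ι : Type v} (e : ι → S A) : ι → List ι → S (DP A Unit)
  | i, [] => emb (e i)
  | i, j :: l => emb (e i) * uu * mon e j l

/-- the field of differential rational functions -/
abbrev Fr (A : Type u) [Field A] : Type u := FractionRing (DP A Unit)

noncomputable abbrev jj : S (DP A Unit) →+* S (Fr A) :=
  S.map (algebraMap (DP A Unit) (Fr A)) isDiff_frac

theorem jj_inj : Function.Injective (jj (A := A)) :=
  map_injective _ (IsFractionRing.injective (DP A Unit) (Fr A))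

theorem emb_inj : Function.Injective (emb (A := A)) := map_injective _ (C_injective _ _)

theorem exists_const (x : S (Fr A)) (h1 : D1 x = 0) (h2 : D2 x = 0) :
    ∃ y : S A, D1 y = 0 ∧ D2 y = 0 ∧ jj (emb y) = x := by
  have h : ∀ q, ∃ a : A, d1 a = 0 ∧ d2 a = 0 ∧
      algebraMap (DP A Unit) (Fr A) (C a) = cf x q := fun q =>
    const_frac _ (congrArg (fun z => cf z q) h1) (congrArg (fun z => cf z q) h2)
  choose a ha1 ha2 ha using h
  refine ⟨S.mk a ((isPWO_support x).mono fun q hq => ?_), ?_, ?_, ?_⟩
  · rw [Function.mem_support] at hq ⊢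
    rw [← ha q]
    intro h0
    apply hq
    have h3 := IsFractionRing.injective (DP A Unit) (Fr A) (h0.trans (map_zero _).symm)
    exact C_injective _ _ (h3.trans (map_zero _).symm)
  · ext q; exact ha1 q
  · ext q; exact ha2 q
  · ext q; exact ha q

variable {ι : Type v} (e : ι → S A)

/-- the derivation `u ↦ z` on the star rings -/
noncomputable abbrev dS : S (DP A Unit) →+ S (DP (Fr A) Unit) :=
  S.amap (delta (algebraMap (DP A Unit) (Fr A)))

noncomputable abbrev zz : S (DP (Fr A) Unit) := S.sg 0 (X ((), 0, 0))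

theorem dS_mul (x y : S (DP A Unit)) :
    dS (x * y) = dS x * iz (jj y) + iz (jj x) * dS y := by
  have hφ : IsDiff ((C : Fr A →+* DP (Fr A) Unit).comp (algebraMap (DP A Unit) (Fr A))) :=
    isDiff_C.comp isDiff_frac
  exact amap_leib hφ (delta (algebraMap (DP A Unit) (Fr A)))
    (fun x y => delta_mul _ x y) (fun x => delta_d1 isDiff_frac x)
    (fun x => delta_d2 isDiff_frac x) x y

theorem dS_emb (x : S A) : dS (emb x) = 0 := by
  ext1 q
  rw [cf_amap, cf_map, delta_C, cf_zero]

theorem dS_uu : dS (uu (A := A)) = zz := by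
  rw [amap_sg, delta_X]

/-- the coefficients of `z R` in the derivative of a monomial -/
noncomputable def Gf : ι → List ι → ((ι × List ι) →₀ S (Fr A))
  | _, [] => 0
  | i, j :: l => Finsupp.single (j, l) (jj (emb (e i))) +
      (Gf j l).mapRange (fun x => jj (emb (e i) * uu) * x) (mul_zero _)

/-- the sum `∑ X_R z R` -/
noncomputable def Ph : ((ι × List ι) →₀ S (Fr A)) →+ S (DP (Fr A) Unit) :=
  Finsupp.liftAddHom fun R =>
    { toFun := fun x => iz x * zz * iz (jj (mon e R.1 R.2))
      map_zero' := by simp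
      map_add' := fun x y => by rw [map_add, add_mul, add_mul] }

theorem Ph_apply (X : (ι × List ι) →₀ S (Fr A)) :
    Ph e X = X.sum fun R x => iz x * zz * iz (jj (mon e R.1 R.2)) := rfl

theorem Ph_smul (y : S (Fr A)) (X : (ι × List ι) →₀ S (Fr A)) :
    Ph e (X.mapRange (fun x => y * x) (mul_zero y)) = iz y * Ph e X := by
  rw [Ph_apply, Ph_apply, Finsupp.sum_mapRange_index (fun k => by simp), Finsupp.sum,
    Finsupp.sum, Finset.mul_sum]
  refine Finset.sum_congr rfl fun k _ => ?_
  rw [map_mul]
  simp only [mul_assoc]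

theorem Ph_single (R : ι × List ι) (x : S (Fr A)) :
    Ph e (Finsupp.single R x) = iz x * zz * iz (jj (mon e R.1 R.2)) := by
  rw [Ph_apply, Finsupp.sum_single_index (by simp)]

theorem dS_mon (i : ι) (l : List ι) : dS (mon e i l) = Ph e (Gf e i l) := by
  induction l generalizing i with
  | nil => rw [mon, Gf, map_zero, dS_emb]
  | cons j l ih =>
    rw [mon, Gf, map_add, Ph_single, Ph_smul, dS_mul, dS_mul, dS_emb, dS_uu, zero_mul, zero_add, ih]

theorem Gf_high (i : ι) (l : List ι) (R : ι × List ι) (h : l.length ≤ R.2.length) :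
    Gf e i l R = 0 := by
  classical
  induction l generalizing i with
  | nil => rfl
  | cons j l ih =>
    rw [List.length_cons] at h
    rw [Gf, Finsupp.add_apply, Finsupp.mapRange_apply, ih j (by omega), mul_zero, add_zero,
      Finsupp.single_apply, if_neg]
    rintro rfl
    simp at h

theorem Gf_top [DecidableEq ι] (i j : ι) (l : List ι) (R : ι × List ι) (h : l.length = R.2.length) :
    Gf e i (j :: l) R = if (j, l) = R then jj (emb (e i)) else 0 := by
  rw [Gf, Finsupp.add_apply, Finsupp.mapRange_apply, Gf_high e j l R h.le, mul_zero, add_zero,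
    Finsupp.single_apply]

theorem fiber (he : ∀ c : ι →₀ S A, (∀ i, S.D1 (c i) = 0 ∧ S.D2 (c i) = 0) →
      (c.sum fun i x => x * e i) = 0 → c = 0)
    (lam : (ι × List ι) →₀ S A) (hl : ∀ l, S.D1 (lam l) = 0 ∧ S.D2 (lam l) = 0)
    [DecidableEq ι] (L : List ι)
    (h : ∑ l ∈ lam.support with l.2 = L, lam l * e l.1 = 0) (i : ι) : lam (i, L) = 0 := by
  have hinj : Set.InjOn (fun i : ι => (i, L)) ((fun i : ι => (i, L)) ⁻¹' ↑lam.support) :=
    fun x _ y _ hxy => congrArg Prod.fst hxy
  set c : ι →₀ S A := lam.comapDomain (fun i => (i, L)) hinj with hc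
  have hci : ∀ i, c i = lam (i, L) := fun i => Finsupp.comapDomain_apply _ _ _ _
  have h1 : c = 0 := by
    refine he c (fun i => by rw [hci]; exact hl _) ?_
    rw [← h, Finsupp.sum]
    refine Finset.sum_bij (fun i _ => (i, L)) ?_ ?_ ?_ ?_
    · intro i hi
      rw [Finset.mem_filter, Finsupp.mem_support_iff]
      rw [Finsupp.mem_support_iff, hci] at hi
      exact ⟨hi, rfl⟩
    · intro i _ k _ hik
      exact congrArg Prod.fst hik
    · rintro ⟨i, L'⟩ hi
      rw [Finset.mem_filter, Finsupp.mem_support_iff] at hi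
      obtain ⟨hi1, rfl⟩ := hi
      exact ⟨i, by rw [Finsupp.mem_support_iff, hci]; exact hi1, rfl⟩
    · intro i _
      rw [hci]
  rw [← hci, h1]
  rfl

theorem ind_step [DecidableEq ι] (he : ∀ c : ι →₀ S A, (∀ i, S.D1 (c i) = 0 ∧ S.D2 (c i) = 0) →
      (c.sum fun i x => x * e i) = 0 → c = 0) (n : ℕ)
    (ih : ∀ lam : (ι × List ι) →₀ S A, (∀ l ∈ lam.support, l.2.length ≤ n) →
      (∀ l, S.D1 (lam l) = 0 ∧ S.D2 (lam l) = 0) →
      (lam.sum fun l x => emb x * mon e l.1 l.2) = 0 → lam = 0)
    (lam : (ι × List ι) →₀ S A) (hlam : ∀ l ∈ lam.support, l.2.length ≤ n + 1)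
    (hl : ∀ l, S.D1 (lam l) = 0 ∧ S.D2 (lam l) = 0)
    (h : (lam.sum fun l x => emb x * mon e l.1 l.2) = 0) : lam = 0 := by
  -- independence over the constants of `S F`
  have hR : ∀ c : (ι × List ι) →₀ S (Fr A), (∀ k ∈ c.support, k ∈ {R : ι × List ι | R.2.length ≤ n}) →
      (∀ k, D1 (c k) = 0 ∧ D2 (c k) = 0) →
      (c.sum fun k x => x * jj (mon e k.1 k.2)) = 0 → c = 0 := by
    intro c hc1 hc2 hc3
    classical
    have hlift : ∀ x : S (Fr A), ∃ y : S A, (D1 x = 0 → D2 x = 0 →
        D1 y = 0 ∧ D2 y = 0 ∧ jj (emb y) = x) ∧ (x = 0 → y = 0) := by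
      intro x
      by_cases hx : D1 x = 0 ∧ D2 x = 0
      · obtain ⟨y, h1, h2, h3⟩ := exists_const x hx.1 hx.2
        refine ⟨y, fun _ _ => ⟨h1, h2, h3⟩, fun h0 => ?_⟩
        rw [h0] at h3
        exact emb_inj (jj_inj (by rw [h3, map_zero, map_zero]))
      · exact ⟨0, fun h1 h2 => absurd ⟨h1, h2⟩ hx, fun _ => rfl⟩
    choose g hg1 hg2 using hlift
    set c' : (ι × List ι) →₀ S A := c.mapRange g (hg2 0 rfl) with hc'
    have hck : ∀ k, jj (emb (c' k)) = c k := fun k => by
      rw [hc', Finsupp.mapRange_apply]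
      exact (hg1 (c k) (hc2 k).1 (hc2 k).2).2.2
    have h1 : c' = 0 := by
      refine ih c' (fun l hl => hc1 l (Finsupp.support_mapRange hl)) (fun k => ?_) ?_
      · rw [hc', Finsupp.mapRange_apply]
        have := hg1 (c k) (hc2 k).1 (hc2 k).2
        exact ⟨this.1, this.2.1⟩
      · apply jj_inj
        rw [map_zero, ← hc3, Finsupp.sum_of_support_subset (s := c.support) c'
          Finsupp.support_mapRange _ (fun k _ => by simp), map_sum, Finsupp.sum]
        refine Finset.sum_congr rfl fun k _ => ?_
        rw [map_mul, hck]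
    ext1 k
    rw [← hck k, h1]
    simp
  -- the derivative
  set X : (ι × List ι) →₀ S (Fr A) := ∑ l ∈ lam.support,
    (Gf e l.1 l.2).mapRange (fun x => jj (emb (lam l)) * x) (mul_zero _) with hX
  have hXa : ∀ R, X R = ∑ l ∈ lam.support, jj (emb (lam l)) * Gf e l.1 l.2 R := by
    intro R
    rw [hX, Finsupp.finsetSum_apply]
    exact Finset.sum_congr rfl fun l _ => Finsupp.mapRange_apply
  have hPX : Ph e X = 0 := by
    rw [hX, map_sum]
    have h1 := congrArg dS h
    rw [map_zero, Finsupp.sum, map_sum] at h1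
    rw [← h1]
    refine Finset.sum_congr rfl fun l _ => ?_
    rw [Ph_smul, dS_mul, dS_emb, zero_mul, zero_add, dS_mon]
  have hX0 : X = 0 := by
    refine indep_A {R : ι × List ι | R.2.length ≤ n} (fun k => jj (mon e k.1 k.2)) hR X ?_ hPX
    intro R hRX
    rw [Finsupp.mem_support_iff, hXa] at hRX
    by_contra hcon
    apply hRX
    refine Finset.sum_eq_zero fun l hl' => ?_
    have h2 := hlam l hl'
    have h3 : ¬ R.2.length ≤ n := hcon
    rw [Gf_high e l.1 l.2 R (by omega), mul_zero]
  -- the top part vanishes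
  refine ih lam (fun l hl' => ?_) hl h
  by_contra hcon
  have hlen : l.2.length = n + 1 := by have := hlam l hl'; omega
  obtain ⟨i, L⟩ := l
  obtain ⟨j, L', rfl⟩ : ∃ j L', L = j :: L' := by
    cases L with
    | nil => simp at hlen
    | cons j L' => exact ⟨j, L', rfl⟩
  simp only [List.length_cons, Nat.add_right_cancel_iff] at hlen
  have h1 : X (j, L') = 0 := by rw [hX0]; rfl
  rw [hXa] at h1
  have h2 : ∑ l ∈ lam.support with l.2 = j :: L', lam l * e l.1 = 0 := by
    apply emb_inj
    apply jj_inj
    rw [map_zero, map_zero, ← h1, map_sum, map_sum, Finset.sum_filter]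
    refine Finset.sum_congr rfl fun l hl'' => ?_
    obtain ⟨a, M⟩ := l
    cases M with
    | nil => simp [Gf]
    | cons b M =>
      by_cases hM : M.length = L'.length
      · rw [Gf_top e a b M (j, L') hM]
        by_cases hjM : (b, M) = (j, L')
        · rw [Prod.mk.injEq] at hjM
          obtain ⟨rfl, rfl⟩ := hjM
          simp
        · rw [if_neg hjM, mul_zero, if_neg]
          intro h3
          apply hjM
          simp only [List.cons.injEq] at h3
          rw [h3.1, h3.2]
      · have h4 := hlam _ hl''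
        simp only [List.length_cons] at h4
        rw [Gf_high e a (b :: M) (j, L') (by simp only [List.length_cons]; omega), mul_zero, if_neg]
        intro h3
        apply hM
        simp only [List.cons.injEq] at h3
        rw [h3.2]
  exact Finsupp.mem_support_iff.mp hl' (fiber e he lam hl (j :: L') h2 i)

theorem no_gpi (he : ∀ c : ι →₀ S A, (∀ i, S.D1 (c i) = 0 ∧ S.D2 (c i) = 0) →
      (c.sum fun i x => x * e i) = 0 → c = 0)
    (lam : (ι × List ι) →₀ S A) (hl : ∀ l, S.D1 (lam l) = 0 ∧ S.D2 (lam l) = 0)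
    (h : (lam.sum fun l x => emb x * mon e l.1 l.2) = 0) : lam = 0 := by
  classical
  have main : ∀ (n : ℕ) (lam : (ι × List ι) →₀ S A), (∀ l ∈ lam.support, l.2.length ≤ n) →
      (∀ l, S.D1 (lam l) = 0 ∧ S.D2 (lam l) = 0) →
      (lam.sum fun l x => emb x * mon e l.1 l.2) = 0 → lam = 0 := by
    intro n
    induction n with
    | zero =>
      intro lam hlam hl h
      have hnil : ∀ l ∈ lam.support, l.2 = [] := fun l hl' =>
        List.length_eq_zero_iff.mp (Nat.le_zero.mp (hlam l hl'))
      have h1 : ∑ l ∈ lam.support with l.2 = [], lam l * e l.1 = 0 := by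
        apply emb_inj
        rw [map_zero, ← h, map_sum, Finset.sum_filter_of_ne (fun l hl' _ => hnil l hl'), Finsupp.sum]
        refine Finset.sum_congr rfl fun l hl' => ?_
        rw [map_mul, hnil l hl', mon]
      ext1 l
      obtain ⟨i, L⟩ := l
      by_cases hL : L = []
      · subst hL
        exact fiber e he lam hl [] h1 i
      · by_contra hne
        exact hL (hnil (i, L) (Finsupp.mem_support_iff.mpr hne))
    | succ n ih =>
      intro lam hlam hl h
      exact ind_step e he n ih lam hlam hl h
  refine main (lam.support.sup fun l => l.2.length) lam (fun l hl' => ?_) hl h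
  exact Finset.le_sup (f := fun l : ι × List ι => l.2.length) hl'

end nogpi

end S

end Pool.Agent.L7h73.AC
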