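import Pool.Agent.L7h73.AC.Star3

/-!
# Inverses in the star ring over a field; the derivations as commutators

* `S.exists_left_inv`: every nonzero element of `S F`, `F` a field, has a left inverse.
* `TV F`: polynomials in two variables `t1`, `t2` over `F` with `d_i t_j = δ_ij`. In `S (TV F)` the
  derivations `D1`, `D2` of `S F` are, up to the factor `h`, commutators with `t2` and `t1`.
* `indep_A`: `∑ X_k z R_k = 0` with a differential indeterminate `z` and with `R_k` linearly independent over the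
  constants implies that all `X_k` vanish.
-/

set_option autoImplicit false
set_option linter.unusedSectionVars false

namespace Pool.Agent.L7h73.AC

universe u v w

open MvPolynomial

attribute [-instance] HahnSeries.powerSeriesAlgebra

namespace S

/-! ### inverses -/
section inv

variable {F : Type u} [Field F] [Algebra ℚ F] [Diff2 F]

theorem exists_left_inv_zero {a : S F} (ha : Ge 0 a) (ha0 : cf a 0 ≠ 0) : ∃ y : S F, y * a = 1 := by
  let ω : S F → WithTop ℚ := fun w => (h (1 - w * a)).orderTop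
  have hlt : ∀ (w : S F) (q : ℚ), (q : WithTop ℚ) < ω w → cf (1 - w * a) q = 0 :=
    fun w q hq => HahnSeries.coeff_eq_zero_of_lt_orderTop hq
  have hle : ∀ (w : S F) (g : WithTop ℚ), (∀ q : ℚ, (q : WithTop ℚ) < g → cf (1 - w * a) q = 0) →
      g ≤ ω w := by
    intro w g hg
    by_contra hcon
    push Not at hcon
    obtain ⟨r, hr⟩ := WithTop.ne_top_iff_exists.mp (ne_top_of_lt hcon)
    have h1 := hg r (by rw [hr]; exact hcon)
    exact HahnSeries.coeff_orderTop_ne (x := h (1 - w * a)) hr.symm h1
  have hb1 : ∀ x y, (∀ q : ℚ, (q : WithTop ℚ) < ω x → cf y q = cf x q) → ω x ≤ ω y := by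
    intro x y hxy
    refine hle y _ fun q hq => ?_
    have h1 : (1 : S F) - y * a = (1 - x * a) - (y - x) * a := by
      rw [sub_mul]; abel
    rw [h1, cf_sub, hlt x q hq, zero_sub, neg_eq_zero]
    obtain ⟨r, hr, hr2⟩ : ∃ r : ℚ, q < r ∧ ∀ s : ℚ, s < r → (s : WithTop ℚ) < ω x := by
      by_cases htop : ω x = ⊤
      · exact ⟨q + 1, by linarith, fun s _ => by rw [htop]; exact WithTop.coe_lt_top s⟩
      · obtain ⟨r, hr⟩ := WithTop.ne_top_iff_exists.mp htop
        rw [← hr] at hq ⊢
        exact ⟨r, WithTop.coe_lt_coe.mp hq, fun s hs => WithTop.coe_lt_coe.mpr hs⟩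
    have h2 : Ge r (y - x) := fun s hs => by
      rw [cf_sub, hxy s (hr2 s hs), sub_self]
    have h3 := h2.mul ha
    rw [add_zero] at h3
    exact h3 q hr
  have hb2 : ∀ x, ω x ≠ ⊤ → ∃ y, (∀ q : ℚ, (q : WithTop ℚ) < ω x → cf y q = cf x q) ∧ ω x < ω y := by
    intro x hx
    obtain ⟨β, hβ⟩ := WithTop.ne_top_iff_exists.mp hx
    have hr : cf (1 - x * a) β ≠ 0 := HahnSeries.coeff_orderTop_ne (x := h (1 - x * a)) hβ.symm
    set c := cf (1 - x * a) β with hc
    refine ⟨x + sg β (c / cf a 0), ?_, ?_⟩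
    · intro q hq
      rw [← hβ] at hq
      have : q ≠ β := (WithTop.coe_lt_coe.mp hq).ne
      rw [cf_add, cf_sg, if_neg this, add_zero]
    · have hG : Ge β (1 - x * a) := fun q hq => hlt x q (by rw [← hβ]; exact WithTop.coe_lt_coe.mpr hq)
      have h1 : (1 : S F) - (x + sg β (c / cf a 0)) * a = (1 - x * a) - sg β (c / cf a 0) * a := by
        rw [add_mul]; abel
      have hG2 : Ge β (sg β (c / cf a 0) * a) := by
        have := (Ge.sg (le_refl β) (c / cf a 0)).mul ha
        rwa [add_zero] at this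
      have h2 : cf (1 - (x + sg β (c / cf a 0)) * a) β = 0 := by
        have h3 := cf_mul_eq (Ge.sg (le_refl β) (c / cf a 0)) ha
        rw [add_zero, cf_sg_same, div_mul_cancel₀ _ ha0] at h3
        rw [h1, cf_sub, h3, ← hc, sub_self]
      have h4 : (β : WithTop ℚ) ≤ ω (x + sg β (c / cf a 0)) := by
        refine hle _ _ fun q hq => ?_
        rw [h1, cf_sub, hG q (WithTop.coe_lt_coe.mp hq), hG2 q (WithTop.coe_lt_coe.mp hq), sub_zero]
      rw [← hβ]
      refine lt_of_le_of_ne h4 fun heq => ?_
      exact HahnSeries.coeff_orderTop_ne (x := h (1 - (x + sg β (c / cf a 0)) * a)) heq.symm h2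
  obtain ⟨y, hy⟩ := ball ω hb1 hb2
  refine ⟨y, ?_⟩
  have h1 : h (1 - y * a) = 0 := HahnSeries.orderTop_eq_top.mp hy
  have h2 : (1 : S F) - y * a = 0 := h.injective (by rw [h1, map_zero])
  exact (sub_eq_zero.mp h2).symm

theorem exists_left_inv {a : S F} (ha : a ≠ 0) : ∃ y : S F, y * a = 1 := by
  obtain ⟨α, h1, h2⟩ := exists_order ha
  obtain ⟨y, hy⟩ := exists_left_inv_zero (a := hp (-α) * a)
    (fun q hq => by rw [cf_hp_mul]; exact h1 _ (by linarith))
    (by rw [cf_hp_mul]; simpa using h2)
  exact ⟨y * hp (-α), by rw [mul_assoc]; exact hy⟩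

end inv

end S

/-! ### two variables -/
section tv

variable {F : Type u} [CommRing F] [Diff2 F]

/-- polynomials in two variables `t1 = X false` and `t2 = X true` -/
abbrev TV (F : Type u) [CommRing F] : Type u := MvPolynomial Bool F

noncomputable instance instTV : Diff2 (TV F) where
  d1 := polyD d1 fun b => if b then 0 else 1
  d2 := polyD d2 fun b => if b then 1 else 0
  leib1 := polyD_leib d1 leib1 _
  leib2 := polyD_leib d2 leib2 _
  comm := by
    intro p
    induction p using MvPolynomial.induction_on with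
    | C b => simp [Diff2.comm]
    | add p q hp hq => rw [map_add, map_add, map_add, map_add, hp, hq]
    | mul_X p s hp =>
      have h1 : polyD (σ := Bool) (d1 (B := F)) (fun b => if b then 0 else 1) 1 = 0 := by
        simpa using polyD_leib (d1 (B := F)) leib1 (fun b : Bool => if b then 0 else 1) 1 1
      have h2 : polyD (σ := Bool) (d2 (B := F)) (fun b => if b then 1 else 0) 1 = 0 := by
        simpa using polyD_leib (d2 (B := F)) leib2 (fun b : Bool => if b then 1 else 0) 1 1
      cases s <;>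
      simp only [polyD_leib d1 leib1, polyD_leib d2 leib2, map_add, hp, polyD_X d1 leib1,
        polyD_X d2 leib2, if_true, if_false, Bool.false_eq_true, mul_zero, map_zero, h1, h2] <;>
      ring

@[simp] theorem tv_d1_C (b : F) : d1 (C b : TV F) = C (d1 b) := polyD_C _ _ _
@[simp] theorem tv_d2_C (b : F) : d2 (C b : TV F) = C (d2 b) := polyD_C _ _ _
@[simp] theorem tv_d1_t1 : d1 (X false : TV F) = 1 := by
  change polyD d1 _ _ = _
  rw [polyD_X _ leib1]; rfl
@[simp] theorem tv_d1_t2 : d1 (X true : TV F) = 0 := by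
  change polyD d1 _ _ = _
  rw [polyD_X _ leib1]; rfl
@[simp] theorem tv_d2_t1 : d2 (X false : TV F) = 0 := by
  change polyD d2 _ _ = _
  rw [polyD_X _ leib2]; rfl
@[simp] theorem tv_d2_t2 : d2 (X true : TV F) = 1 := by
  change polyD d2 _ _ = _
  rw [polyD_X _ leib2]; rfl

theorem isDiff_tvC : IsDiff (C : F →+* TV F) := ⟨fun b => (tv_d1_C b).symm, fun b => (tv_d2_C b).symm⟩

end tv

section two
variable {B : Type u} [CommRing B] [Algebra ℚ B] [Diff2 B]

theorem dd_one_apply (f : B →+ B) (b : B) : dd f 1 b = f b := by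
  simp [dd_apply]

theorem star_two {a b : HahnSeries ℚ B} (hz : ∀ n, tm a b (n + 2) = 0) (q : ℚ) :
    (star a b).coeff q = (a * b).coeff q + (d1 a * d2 b).coeff (q - 1) := by
  obtain ⟨K, hK, -⟩ := exists_star_coeff a b q
  rw [star_coeff subset_rfl (K := K + 1 + 1) (fun n hn => hK n (by omega)),
    Finset.sum_range_succ', Finset.sum_range_succ']
  rw [Finset.sum_eq_zero fun n _ => by rw [hz n, HahnSeries.coeff_zero], zero_add, add_comm]
  congr 1
  · simp [tm]
  · simp only [tm, zero_add, Function.iterate_one, Nat.cast_one]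
    congr 2
    ext r
    rw [coeff_dd2, coeff_d2, dd_one_apply]

theorem star_two_right {a b : HahnSeries ℚ B} (hb : d2 (d2 b) = 0) (q : ℚ) :
    (star a b).coeff q = (a * b).coeff q + (d1 a * d2 b).coeff (q - 1) := by
  refine star_two (fun n => ?_) q
  rw [tm, dd_apply, Function.iterate_succ_apply (f := d2), Function.iterate_succ_apply (f := d2),
    hb, iterate_map_zero, smul_zero, mul_zero]

theorem star_two_left {a b : HahnSeries ℚ B} (ha : d1 (d1 a) = 0) (q : ℚ) :
    (star a b).coeff q = (a * b).coeff q + (d1 a * d2 b).coeff (q - 1) := by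
  refine star_two (fun n => ?_) q
  rw [tm, Function.iterate_succ_apply (f := d1), Function.iterate_succ_apply (f := d1), ha,
    iterate_map_zero, zero_mul]

end two

namespace S
section comm
variable {F : Type u} [CommRing F] [Algebra ℚ F] [Diff2 F]

/-- the embedding of `S F` -/
noncomputable abbrev it : S F →+* S (TV F) := S.map (C : F →+* TV F) isDiff_tvC

/-- `[x, t2] = h D1 x` -/
theorem mul_t2 (x : S F) : it x * sg 0 (X true) = sg 0 (X true) * it x + hp 1 * it (D1 x) := by
  ext1 q
  rw [cf_add, cf_sg_mul tv_d1_t2, cf_hp_mul]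
  have h1 : cf (it x * sg 0 (X true)) q = (star (h (it x)) (HahnSeries.single 0 (X true))).coeff q :=
    rfl
  have h2 : d2 (HahnSeries.single (0 : ℚ) (X true : TV F)) = HahnSeries.single 0 1 := by
    rw [d2_single, tv_d2_t2]
  have h3 : d2 (HahnSeries.single (0 : ℚ) (1 : TV F)) = 0 := by
    rw [d2_single, d2_one, HahnSeries.single_eq_zero]
  rw [h1, star_two_right (by rw [h2, h3]), h2]
  have h4 : (h (it x) * HahnSeries.single (0 : ℚ) (X true)).coeff q = cf (it x) q * X true := by
    have := HahnSeries.coeff_mul_single (r := (X true : TV F)) (x := h (it x)) (a := q) (b := 0)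
    rw [sub_zero] at this
    exact this
  have h5 : (d1 (h (it x)) * HahnSeries.single (0 : ℚ) (1 : TV F)).coeff (q - 1) =
      d1 (cf (it x) (q - 1)) := by
    have := HahnSeries.coeff_mul_single (r := (1 : TV F)) (x := d1 (h (it x))) (a := q - 1) (b := 0)
    rw [sub_zero, mul_one] at this
    exact this
  rw [h4, h5, sub_zero, mul_comm, cf_map, cf_map, cf_map, cf_D1, tv_d1_C]

/-- `[t1, x] = h D2 x` -/
theorem t1_mul (x : S F) : sg 0 (X false) * it x = it x * sg 0 (X false) + hp 1 * it (D2 x) := by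
  ext1 q
  rw [cf_add, cf_mul_sg tv_d2_t1, cf_hp_mul]
  have h1 : cf (sg 0 (X false) * it x) q = (star (HahnSeries.single 0 (X false)) (h (it x))).coeff q :=
    rfl
  have h2 : d1 (HahnSeries.single (0 : ℚ) (X false : TV F)) = HahnSeries.single 0 1 := by
    rw [d1_single, tv_d1_t1]
  have h3 : d1 (HahnSeries.single (0 : ℚ) (1 : TV F)) = 0 := by
    rw [d1_single, d1_one, HahnSeries.single_eq_zero]
  rw [h1, star_two_left (by rw [h2, h3]), h2]
  have h4 : (HahnSeries.single (0 : ℚ) (X false) * h (it x)).coeff q = X false * cf (it x) q := by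
    have := HahnSeries.coeff_single_mul (r := (X false : TV F)) (x := h (it x)) (a := q) (b := 0)
    rw [sub_zero] at this
    exact this
  have h5 : (HahnSeries.single (0 : ℚ) (1 : TV F) * d2 (h (it x))).coeff (q - 1) =
      d2 (cf (it x) (q - 1)) := by
    have := HahnSeries.coeff_single_mul (r := (1 : TV F)) (x := d2 (h (it x))) (a := q - 1) (b := 0)
    rw [sub_zero, one_mul] at this
    exact this
  rw [h4, h5, sub_zero, mul_comm, cf_map, cf_map, cf_map, cf_D2, tv_d2_C]

theorem t2_mul_sg (f : TV F) : sg 0 (X true) * sg 0 f = sg 0 (X true * f) := by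
  ext1 q
  rw [cf_sg_mul tv_d1_t2, sub_zero, cf_sg, cf_sg]
  split_ifs <;> simp

theorem t1_mul_sg (f : TV F) : sg 0 (X false) * sg 0 f = sg 0 (X false * f) + hp 1 * sg 0 (d2 f) := by
  ext1 q
  rw [cf_add, cf_hp_mul]
  have h1 : cf (sg 0 (X false) * sg 0 f) q =
      (star (HahnSeries.single 0 (X false)) (HahnSeries.single 0 f)).coeff q := rfl
  have h2 : d1 (HahnSeries.single (0 : ℚ) (X false : TV F)) = HahnSeries.single 0 1 := by
    rw [d1_single, tv_d1_t1]
  have h3 : d1 (HahnSeries.single (0 : ℚ) (1 : TV F)) = 0 := by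
    rw [d1_single, d1_one, HahnSeries.single_eq_zero]
  rw [h1, star_two_left (by rw [h2, h3]), h2, HahnSeries.single_mul_single, d2_single,
    HahnSeries.single_mul_single, one_mul, add_zero]
  congr 1

theorem hp_mul_eq_zero {x : S F} {γ : ℚ} (hx : hp γ * x = 0) : x = 0 := by
  ext q
  have := congrArg (fun y : S F => cf y (q + γ)) hx
  simp only [cf_hp_mul, cf_zero, add_sub_cancel_right] at this
  rw [this, cf_zero]

/-- the relation `∑ X_k f R_k = 0` for all polynomials `f` in `t1`, `t2` -/
def Rel {K : Type v} (R : K → S F) (X : K →₀ S F) : Prop :=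
  ∀ f : TV F, (X.sum fun k x => it x * sg 0 f * it (R k)) = 0

theorem Rel.smul {K : Type v} {R : K → S F} {X : K →₀ S F} (hX : Rel R X) (y : S F) :
    Rel R (X.mapRange (fun x => y * x) (mul_zero y)) := by
  intro f
  rw [Finsupp.sum_mapRange_index (fun k => by simp)]
  have h1 := congrArg (fun z => it y * z) (hX f)
  simp only [mul_zero] at h1
  rw [Finsupp.sum, Finset.mul_sum] at h1
  rw [Finsupp.sum, ← h1]
  refine Finset.sum_congr rfl fun k _ => ?_
  rw [map_mul]
  simp only [mul_assoc]

theorem Rel.D1 {K : Type v} {R : K → S F} {X : K →₀ S F} (hX : Rel R X) :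
    Rel R (X.mapRange S.D1 (map_zero _)) := by
  intro f
  rw [Finsupp.sum_mapRange_index (fun k => by simp)]
  refine hp_mul_eq_zero (γ := 1) ?_
  have h1 := hX (MvPolynomial.X true * f)
  have h2 := congrArg (fun z => sg 0 (MvPolynomial.X true) * z) (hX f)
  simp only [mul_zero] at h2
  rw [Finsupp.sum] at h1 h2 ⊢
  rw [Finset.mul_sum] at h2 ⊢
  have h3 : ∀ k ∈ X.support, hp 1 * (it (S.D1 (X k)) * sg 0 f * it (R k)) =
      it (X k) * sg 0 (MvPolynomial.X true * f) * it (R k) -
        sg 0 (MvPolynomial.X true) * (it (X k) * sg 0 f * it (R k)) := by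
    intro k _
    have h4 : hp 1 * it (S.D1 (X k)) =
        it (X k) * sg 0 (MvPolynomial.X true) - sg 0 (MvPolynomial.X true) * it (X k) := by
      rw [mul_t2]; abel
    rw [← t2_mul_sg]
    calc hp 1 * (it (S.D1 (X k)) * sg 0 f * it (R k))
        = (hp 1 * it (S.D1 (X k))) * (sg 0 f * it (R k)) := by simp only [mul_assoc]
      _ = _ := by rw [h4, sub_mul]; simp only [mul_assoc]
  rw [Finset.sum_congr rfl h3, Finset.sum_sub_distrib, h1, h2, sub_zero]

theorem Rel.D2 {K : Type v} {R : K → S F} {X : K →₀ S F} (hX : Rel R X) :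
    Rel R (X.mapRange S.D2 (map_zero _)) := by
  intro f
  rw [Finsupp.sum_mapRange_index (fun k => by simp)]
  refine hp_mul_eq_zero (γ := 1) ?_
  have h1 := hX (MvPolynomial.X false * f)
  have h1' := congrArg (fun z => hp 1 * z) (hX (d2 f))
  have h2 := congrArg (fun z => sg 0 (MvPolynomial.X false) * z) (hX f)
  simp only [mul_zero] at h2 h1'
  rw [Finsupp.sum] at h1 h1' h2 ⊢
  rw [Finset.mul_sum] at h1' h2 ⊢
  have h3 : ∀ k ∈ X.support, hp 1 * (it (S.D2 (X k)) * sg 0 f * it (R k)) =
      sg 0 (MvPolynomial.X false) * (it (X k) * sg 0 f * it (R k)) -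
      (it (X k) * sg 0 (MvPolynomial.X false * f) * it (R k) +
        hp 1 * (it (X k) * sg 0 (d2 f) * it (R k))) := by
    intro k _
    have h4 : hp 1 * it (S.D2 (X k)) =
        sg 0 (MvPolynomial.X false) * it (X k) - it (X k) * sg 0 (MvPolynomial.X false) := by
      rw [t1_mul]; abel
    have h5 : sg 0 (MvPolynomial.X false * f) =
        sg 0 (MvPolynomial.X false) * sg 0 f - hp 1 * sg 0 (d2 f) := by
      rw [t1_mul_sg]; abel
    have h6 : it (X k) * (hp 1 * sg 0 (d2 f)) * it (R k) =
        hp 1 * (it (X k) * sg 0 (d2 f) * it (R k)) := by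
      rw [← mul_assoc (it (X k)), ← hp_comm]
      simp only [mul_assoc]
    calc hp 1 * (it (S.D2 (X k)) * sg 0 f * it (R k))
        = (hp 1 * it (S.D2 (X k))) * (sg 0 f * it (R k)) := by simp only [mul_assoc]
      _ = sg 0 (MvPolynomial.X false) * (it (X k) * sg 0 f * it (R k)) -
          it (X k) * (sg 0 (MvPolynomial.X false) * sg 0 f) * it (R k) := by
            rw [h4, sub_mul]; simp only [mul_assoc]
      _ = _ := by
        rw [h5, mul_sub, sub_mul, h6]
        abel
  rw [Finset.sum_congr rfl h3, Finset.sum_sub_distrib, Finset.sum_add_distrib, h1, h1', h2,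
    add_zero, sub_zero]

end comm

section indep
variable {F : Type u} [Field F] [Algebra ℚ F] [Diff2 F]

theorem indep_rel {K : Type v} (T : Set K) (R : K → S F)
    (hR : ∀ c : K →₀ S F, (∀ k ∈ c.support, k ∈ T) → (∀ k, D1 (c k) = 0 ∧ D2 (c k) = 0) →
      (c.sum fun k x => x * R k) = 0 → c = 0)
    (X : K →₀ S F) (hXT : ∀ k ∈ X.support, k ∈ T) (hX : Rel R X) : X = 0 := by
  classical
  by_contra hne
  have hex : ∃ n : ℕ, ∃ X : K →₀ S F, X ≠ 0 ∧ (∀ k ∈ X.support, k ∈ T) ∧ Rel R X ∧
      X.support.card = n := ⟨_, X, hne, hXT, hX, rfl⟩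
  obtain ⟨X, hX0, hXT, hX, hn⟩ := Nat.find_spec hex
  have hmin : ∀ Z : K →₀ S F, (∀ k ∈ Z.support, k ∈ T) → Rel R Z →
      Z.support.card < X.support.card → Z = 0 := by
    intro Z h1 h2 h3
    by_contra h4
    rw [hn] at h3
    exact Nat.find_min hex h3 ⟨Z, h4, h1, h2, rfl⟩
  obtain ⟨m, hm⟩ := Finsupp.support_nonempty_iff.mpr hX0
  obtain ⟨y, hy⟩ := exists_left_inv (Finsupp.mem_support_iff.mp hm)
  set Y : K →₀ S F := X.mapRange (fun x => y * x) (mul_zero y) with hY
  have hYs : Y.support ⊆ X.support := Finsupp.support_mapRange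
  have hYm : Y m = 1 := by rw [hY, Finsupp.mapRange_apply, hy]
  have hYR : Rel R Y := hX.smul y
  have key : ∀ (D : S F →+ S F) (Z : K →₀ S F), Z = Y.mapRange D (map_zero D) → Rel R Z →
      D 1 = 0 → Z = 0 := by
    intro D Z hZ hZR hD
    have h1 : Z.support ⊆ Y.support.erase m := by
      intro k hk
      rw [Finset.mem_erase]
      refine ⟨?_, ?_⟩
      · rintro rfl
        rw [Finsupp.mem_support_iff, hZ, Finsupp.mapRange_apply, hYm] at hk
        exact hk hD
      · rw [hZ] at hk
        exact Finsupp.support_mapRange hk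
    have hmY : m ∈ Y.support := by
      rw [Finsupp.mem_support_iff, hYm]
      exact one_ne_zero
    refine hmin Z (fun k hk => hXT k (hYs (Finset.mem_of_mem_erase (h1 hk)))) hZR ?_
    calc Z.support.card ≤ (Y.support.erase m).card := Finset.card_le_card h1
      _ < Y.support.card := Finset.card_erase_lt_of_mem hmY
      _ ≤ X.support.card := Finset.card_le_card hYs
  have hone1 : S.D1 (1 : S F) = 0 := by
    have := D1_mul (1 : S F) 1
    simpa using this
  have hone2 : S.D2 (1 : S F) = 0 := by
    have := D2_mul (1 : S F) 1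
    simpa using this
  have h1 := key S.D1 _ rfl hYR.D1 hone1
  have h2 := key S.D2 _ rfl hYR.D2 hone2
  have h3 : Y = 0 := by
    refine hR Y (fun k hk => hXT k (hYs hk)) (fun k => ⟨?_, ?_⟩) ?_
    · have := DFunLike.congr_fun h1 k
      rwa [Finsupp.mapRange_apply] at this
    · have := DFunLike.congr_fun h2 k
      rwa [Finsupp.mapRange_apply] at this
    · have h4 := hYR 1
      have h5 : (sg 0 (1 : TV F)) = 1 := rfl
      simp only [h5, mul_one] at h4
      have h6 : it (Y.sum fun k x => x * R k) = 0 := by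
        rw [Finsupp.sum, map_sum, ← h4, Finsupp.sum]
        exact Finset.sum_congr rfl fun k _ => map_mul _ _ _
      ext q
      have h7 := congrArg (fun z => cf z q) h6
      simp only [cf_map, cf_zero] at h7
      rw [cf_zero]
      exact C_injective _ _ (by rw [h7, map_zero])
  rw [h3] at hYm
  exact one_ne_zero hYm.symm

/-- the embedding of `S F` into the star ring of differential polynomials -/
noncomputable abbrev iz : S F →+* S (DP F Unit) := S.map (C : F →+* DP F Unit) isDiff_C

/-- If the `R_k` are linearly independent over the constants and `z` is a differential indeterminate,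
then `∑ X_k z R_k = 0` implies that all `X_k` vanish. -/
theorem indep_A {K : Type v} (T : Set K) (R : K → S F)
    (hR : ∀ c : K →₀ S F, (∀ k ∈ c.support, k ∈ T) → (∀ k, D1 (c k) = 0 ∧ D2 (c k) = 0) →
      (c.sum fun k x => x * R k) = 0 → c = 0)
    (X : K →₀ S F) (hXT : ∀ k ∈ X.support, k ∈ T)
    (hX : (X.sum fun k x => iz x * sg 0 (MvPolynomial.X ((), 0, 0)) * iz (R k)) = 0) : X = 0 := by
  refine indep_rel T R hR X hXT fun f => ?_
  have hd : IsDiff (DP.lift (V := Unit) (C : F →+* TV F) (fun _ => f)) := DP.isDiff_lift isDiff_tvC _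
  have h1 := congrArg (S.map _ hd) hX
  rw [map_zero, Finsupp.sum, map_sum] at h1
  rw [Finsupp.sum, ← h1]
  have h2 : ∀ x : S F, S.map _ hd (iz x) = it x := by
    intro x
    ext1 q
    simp
  refine Finset.sum_congr rfl fun k _ => ?_
  rw [map_mul, map_mul, h2, h2, map_sg]
  simp

end indep

end S

end Pool.Agent.L7h73.AC
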